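import Pool.Agent.LibSchMin.M3

/-!
# The quadratic minorant of `Def(E)` with a scalar `Z`
-/

open Matrix
open scoped ComplexOrder

namespace SchMin

open SchK Pool.Agent.LibSchP

variable {m : Type} [Fintype m] [DecidableEq m]

/-- `Z = (p, -r; -r, -p) ⊗ 1` -/
noncomputable def ZZ (m : Type) [DecidableEq m] (p r : ℝ) : Matrix (m ⊕ m) (m ⊕ m) ℂ :=
  fromBlocks ((p : ℂ) • 1) (-((r : ℂ) • 1)) (-((r : ℂ) • 1)) (-((p : ℂ) • 1))

theorem ZZ_herm (p r : ℝ) : (ZZ m p r).IsHermitian := by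
  unfold ZZ Matrix.IsHermitian
  rw [fromBlocks_conjTranspose]
  congr 1 <;> simp [conjTranspose_smul]

theorem EZ (E11 E12 E22 : Matrix m m ℂ) (p r : ℝ) :
    fromBlocks E11 E12 E12ᴴ E22 * ZZ m p r =
      fromBlocks ((p : ℂ) • E11 - (r : ℂ) • E12) (-((r : ℂ) • E11) - (p : ℂ) • E12)
        ((p : ℂ) • E12ᴴ - (r : ℂ) • E22) (-((r : ℂ) • E12ᴴ) - (p : ℂ) • E22) := by
  unfold ZZ
  rw [fromBlocks_multiply]
  congr 1 <;> simp <;> abel

theorem ZE (E11 E12 E22 : Matrix m m ℂ) (p r : ℝ) :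
    ZZ m p r * fromBlocks E11 E12 E12ᴴ E22 =
      fromBlocks ((p : ℂ) • E11 - (r : ℂ) • E12ᴴ) ((p : ℂ) • E12 - (r : ℂ) • E22)
        (-((r : ℂ) • E11) - (p : ℂ) • E12ᴴ) (-((r : ℂ) • E12) - (p : ℂ) • E22) := by
  unfold ZZ
  rw [fromBlocks_multiply]
  congr 1 <;> simp <;> abel

theorem ip_h (X Y : Matrix m m ℂ) (hX : X.IsHermitian) : ip X Y = (trace (X * Y)).re := by
  unfold ip
  rw [show Xᴴ = X from hX]

theorem ip_h' (X Y : Matrix m m ℂ) (hX : X.IsHermitian) : ip X Yᴴ = (trace (X * Y)).re := by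
  rw [← ip_conj, conjTranspose_conjTranspose, show Xᴴ = X from hX, ip_h X Y hX]

theorem ip_d (X : Matrix m m ℂ) : ip X Xᴴ = (trace (X * X)).re := by
  unfold ip
  rw [← conjTranspose_mul, trace_conjTranspose, Complex.star_def, Complex.conj_re]

theorem fr_EZ_add (E11 E12 E22 : Matrix m m ℂ) (h11 : E11.IsHermitian) (h22 : E22.IsHermitian)
    (p r : ℝ) :
    fr (fromBlocks E11 E12 E12ᴴ E22 * ZZ m p r + ZZ m p r * fromBlocks E11 E12 E12ᴴ E22) =
      (4 * p ^ 2 + 2 * r ^ 2) * (fr E11 + fr E22) + 4 * r ^ 2 * (fr E12 + (trace (E12 * E12)).re) +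
        4 * r ^ 2 * (trace (E11 * E22)).re -
        8 * p * r * ((trace (E11 * E12)).re - (trace (E22 * E12)).re) := by
  rw [EZ, ZE, fromBlocks_add, fr_fromBlocks, ← ip_self, ← ip_self, ← ip_self, ← ip_self,
    ← ip_self E11, ← ip_self E12, ← ip_self E22]
  simp only [ip_add_left, ip_add_right, ip_sub_left, ip_sub_right, ip_smul_left, ip_smul_right,
    ip_neg_left, ip_neg_right]
  have e1 : ip E12ᴴ E12ᴴ = ip E12 E12 := ip_conj _ _
  have e2 : ip E12ᴴ E12 = ip E12 E12ᴴ := ip_comm _ _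
  have e3 : ip E12 E11 = ip E11 E12 := ip_comm _ _
  have e4 : ip E12 E22 = ip E22 E12 := ip_comm _ _
  have e5 : ip E12ᴴ E11 = ip E11 E12ᴴ := ip_comm _ _
  have e6 : ip E12ᴴ E22 = ip E22 E12ᴴ := ip_comm _ _
  have e7 : ip E22 E11 = ip E11 E22 := ip_comm _ _
  rw [e1, e2, e3, e4, e5, e6, e7, ip_h E11 E12 h11, ip_h E22 E12 h22, ip_h' E11 E12 h11,
    ip_h' E22 E12 h22, ip_d E12, ip_h E11 E22 h11]
  ring

theorem fr_EZ_sub (E11 E12 E22 : Matrix m m ℂ) (h11 : E11.IsHermitian) (h22 : E22.IsHermitian)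
    (p r : ℝ) :
    fr (fromBlocks E11 E12 E12ᴴ E22 * ZZ m p r - ZZ m p r * fromBlocks E11 E12 E12ᴴ E22) =
      4 * r ^ 2 * (fr E12 - (trace (E12 * E12)).re) + 2 * r ^ 2 * (fr E11 + fr E22) -
        4 * r ^ 2 * (trace (E11 * E22)).re + 8 * p ^ 2 * fr E12 +
        8 * p * r * ((trace (E11 * E12)).re - (trace (E22 * E12)).re) := by
  rw [EZ, ZE, sub_eq_add_neg, fromBlocks_neg, fromBlocks_add, fr_fromBlocks, ← ip_self, ← ip_self,
    ← ip_self, ← ip_self, ← ip_self E11, ← ip_self E12, ← ip_self E22]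
  simp only [ip_add_left, ip_add_right, ip_sub_left, ip_sub_right, ip_smul_left, ip_smul_right,
    ip_neg_left, ip_neg_right]
  have e1 : ip E12ᴴ E12ᴴ = ip E12 E12 := ip_conj _ _
  have e2 : ip E12ᴴ E12 = ip E12 E12ᴴ := ip_comm _ _
  have e3 : ip E12 E11 = ip E11 E12 := ip_comm _ _
  have e4 : ip E12 E22 = ip E22 E12 := ip_comm _ _
  have e5 : ip E12ᴴ E11 = ip E11 E12ᴴ := ip_comm _ _
  have e6 : ip E12ᴴ E22 = ip E22 E12ᴴ := ip_comm _ _
  have e7 : ip E22 E11 = ip E11 E22 := ip_comm _ _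
  rw [e1, e2, e3, e4, e5, e6, e7, ip_h E11 E12 h11, ip_h E22 E12 h22, ip_h' E11 E12 h11,
    ip_h' E22 E12 h22, ip_d E12, ip_h E11 E22 h11]
  ring

theorem tr_ZY (E11 E12 E22 : Matrix m m ℂ) (h11 : E11.IsHermitian) (h22 : E22.IsHermitian)
    (p r : ℝ) : (trace (ZZ m p r * YY E11 E12 E22)).re =
      4 * p * fr E12 + 2 * r * ((trace (E11 * E12)).re - (trace (E22 * E12)).re) := by
  have h1 : (trace (E12 * E12ᴴ)).re = fr E12 := by
    rw [trace_mul_comm, fr_eq_trace]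
  have h2 : (trace (E12ᴴ * E12)).re = fr E12 := (fr_eq_trace E12).symm
  have h3 : (trace (E12 * E22)).re = (trace (E22 * E12)).re := by rw [trace_mul_comm]
  have h4 : (trace (E12 * E22 - E11 * E12)ᴴ).re = (trace (E12 * E22 - E11 * E12)).re := by
    rw [trace_conjTranspose, Complex.star_def, Complex.conj_re]
  unfold ZZ YY
  rw [fromBlocks_multiply, trace_blocks]
  simp only [trace_add, Complex.add_re, Matrix.smul_mul, Matrix.neg_mul, Matrix.one_mul,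
    trace_neg, trace_smul, Matrix.mul_neg, smul_eq_mul, Complex.neg_re, Complex.re_ofReal_mul,
    neg_neg]
  rw [h4, trace_sub, Complex.sub_re, h1, h2, h3]
  ring

/-- the form `q_D(E)` of the minorant with `Z = (p, -r; -r, -p) ⊗ 1` -/
noncomputable def qD (w0 A B p r : ℝ) (E11 E12 E22 : Matrix m m ℂ) : ℝ :=
  8 * w0 * fr E12 + 4 * (8 * p * fr E12 +
    4 * r * ((trace (E11 * E12)).re - (trace (E22 * E12)).re) -
    2 * ((A + B) * (p ^ 2 + r ^ 2) * (fr E11 + 2 * fr E12 + fr E22) +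
      (A - B) * (p ^ 2 * (fr E11 + fr E22 - 2 * fr E12) +
        2 * r ^ 2 * ((trace (E11 * E22)).re + (trace (E12 * E12)).re) -
        4 * p * r * ((trace (E11 * E12)).re - (trace (E22 * E12)).re))))

/-- **The minorant with a scalar `Z`** -/
theorem minorant_scalar {b : ℝ} (hb0 : 0 < b) (hb1 : b < 1) {A B : ℝ} (hAB : HAB b A B)
    (E11 E12 E22 : Matrix m m ℂ) (h11 : E11.IsHermitian) (h22 : E22.IsHermitian)
    (U : Matrix (m ⊕ m) (m ⊕ m) ℂ) (hU : U ∈ unitaryGroup (m ⊕ m) ℂ) (x : m ⊕ m → ℝ)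
    (hx : ∀ i, 0 ≤ x i) (hE : fromBlocks E11 E12 E12ᴴ E22 = ud U x) (p r : ℝ) :
    qD ((4 - b ^ 2) / (3 * b)) A B p r E11 E12 E22 ≤ DefE b (sg m m) U x := by
  have h := minorant_block hb0 hb1 hAB E11 E12 E22 h11 h22 U hU x hx hE (ZZ m p r) (ZZ_herm p r)
  rw [tr_ZY E11 E12 E22 h11 h22, fr_EZ_add E11 E12 E22 h11 h22, fr_EZ_sub E11 E12 E22 h11 h22] at h
  refine le_trans (le_of_eq ?_) h
  unfold qD
  ring

end SchMin
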