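import Pool.Agent.LibSchK.K5

/-!
# The kernel `(x² - y²)(x^b + y^b)/(x^b - y^b)` and its pair inequality
-/

open Real Filter Topology

namespace SchMin

open SchK

/-- the kernel `(x² - y²)(x^b + y^b)/(x^b - y^b)` -/
noncomputable def kk (b x y : ℝ) : ℝ :=
  if x = y then 4 / b * x ^ 2 else (x ^ 2 - y ^ 2) * (x ^ b + y ^ b) / (x ^ b - y ^ b)

theorem kk_comm (b x y : ℝ) : kk b x y = kk b y x := by
  unfold kk
  by_cases h : x = y
  · subst h; rfl
  · rw [if_neg h, if_neg (Ne.symm h), ← neg_sub (y ^ 2), ← neg_sub (y ^ b), neg_mul, neg_div_neg_eq,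
      add_comm (x ^ b)]

/-- `P = (2/b)(x² + y²) - k(x,y) - w₀ (x-y)²` -/
noncomputable def PP (b x y : ℝ) : ℝ :=
  2 / b * (x ^ 2 + y ^ 2) - kk b x y - (4 - b ^ 2) / (3 * b) * (x - y) ^ 2

theorem PP_comm (b x y : ℝ) : PP b x y = PP b y x := by
  unfold PP
  rw [kk_comm]; ring

/-- the constant `3b/((1-b²)(4-b²))` -/
noncomputable def cF (b : ℝ) : ℝ := 3 * b / ((1 - b ^ 2) * (4 - b ^ 2))

/-- `q / (w - w₀) ≤ A + B q` -/
def HAB (b A B : ℝ) : Prop := ∀ u, 0 < u → cF b * Ff b u ≤ A + B * Real.tanh u ^ 2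

section

variable {b : ℝ} (hb0 : 0 < b) (hb1 : b < 1)

include hb0 hb1 in
theorem cF_pos : 0 < cF b := by
  have hb2 : b ^ 2 < 1 := by nlinarith
  have h1 : 0 < 1 - b ^ 2 := by linarith
  have h2 : 0 < 4 - b ^ 2 := by linarith
  unfold cF
  positivity

include hb0 hb1 in
/-- the tangent of `F` at `y` -/
theorem hab_tangent {y : ℝ} (hy : 0 < y) :
    HAB b (cF b * (Ff b y - F1 b y * Real.tanh y ^ 2)) (cF b * F1 b y) := by
  intro u hu
  have h := F_tangent hb0 hb1 hu hy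
  have h2 := mul_le_mul_of_nonneg_left h (cF_pos hb0 hb1).le
  calc cF b * Ff b u ≤ cF b * (Ff b y + F1 b y * (Real.tanh u ^ 2 - Real.tanh y ^ 2)) := h2
    _ = _ := by ring

/-- parametrisation of a pair -/
theorem pair_param {x y : ℝ} (hy : 0 < y) (hxy : y < x) :
    ∃ u g : ℝ, 0 < u ∧ 0 < g ∧ x = g * exp u ∧ y = g * exp (-u) := by
  have hx : 0 < x := hy.trans hxy
  refine ⟨(log x - log y) / 2, sqrt (x * y), ?_, sqrt_pos.2 (mul_pos hx hy), ?_, ?_⟩
  · have := log_lt_log hy hxy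
    linarith
  · have h1 : sqrt (x * y) = exp ((log x + log y) / 2) := by
      rw [sqrt_eq_iff_mul_self_eq (mul_pos hx hy).le (exp_pos _).le, ← exp_add]
      rw [show (log x + log y) / 2 + (log x + log y) / 2 = log x + log y by ring, exp_add,
        exp_log hx, exp_log hy]
    rw [h1, ← exp_add, show (log x + log y) / 2 + (log x - log y) / 2 = log x by ring, exp_log hx]
  · have h1 : sqrt (x * y) = exp ((log x + log y) / 2) := by
      rw [sqrt_eq_iff_mul_self_eq (mul_pos hx hy).le (exp_pos _).le, ← exp_add]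
      rw [show (log x + log y) / 2 + (log x + log y) / 2 = log x + log y by ring, exp_add,
        exp_log hx, exp_log hy]
    rw [h1, ← exp_add, show (log x + log y) / 2 + -((log x - log y) / 2) = log y by ring,
      exp_log hy]

include hb0 in
theorem kk_param {u g : ℝ} (hu : 0 < u) (hg : 0 < g) :
    kk b (g * exp u) (g * exp (-u)) = g ^ 2 * Kf b u := by
  have hne : g * exp u ≠ g * exp (-u) := by
    intro h
    have := exp_injective (mul_left_cancel₀ hg.ne' h)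
    linarith
  unfold kk Kf
  rw [if_neg hne, mul_rpow hg.le (exp_pos _).le, mul_rpow hg.le (exp_pos _).le, ← exp_mul,
    ← exp_mul, Real.sinh_eq, Real.cosh_eq, Real.sinh_eq]
  have hgb : (g ^ b) ≠ 0 := (rpow_pos_of_pos hg b).ne'
  have hbu : exp (u * b) - exp (-u * b) ≠ 0 := by
    have : exp (-u * b) < exp (u * b) := by
      apply exp_lt_exp.2
      nlinarith [mul_pos hu hb0]
    linarith
  have e1 : exp (2 * u) = exp u ^ 2 := by rw [← exp_nat_mul]; norm_num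
  have e2 : exp (-(2 * u)) = exp (-u) ^ 2 := by rw [← exp_nat_mul]; norm_num
  rw [e1, e2, show b * u = u * b by ring, show -(u * b) = -u * b by ring]
  have h3 : (exp (u * b) - exp (-u * b)) / 2 ≠ 0 := div_ne_zero hbu two_ne_zero
  have h4 : g ^ b * exp (u * b) - g ^ b * exp (-u * b) ≠ 0 := by
    rw [← mul_sub]; exact mul_ne_zero hgb hbu
  rw [div_eq_iff h4]
  generalize exp (u * b) = p at *
  generalize exp (-u * b) = q at *
  field_simp

include hb0 hb1 in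
theorem PP_param {u g : ℝ} (hu : 0 < u) (hg : 0 < g) :
    PP b (g * exp u) (g * exp (-u)) = (g * exp u - g * exp (-u)) ^ 2 *
      (Real.tanh u ^ 2 / (cF b * Ff b u)) := by
  have h1 := tangent_sub hb0 hb1 hu
  have hF := (F_pos hb0 hb1 hu).ne'
  have hq := (one_sub_sq_pos u).ne'
  have hb := hb0.ne'
  have hb2 : b ^ 2 < 1 := by nlinarith
  have hb3 : 1 - b ^ 2 ≠ 0 := by linarith
  have hb4 : 4 - b ^ 2 ≠ 0 := by linarith
  have hee : exp u * exp (-u) = 1 := by rw [← exp_add]; simp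
  have e1 : exp (2 * u) = exp u ^ 2 := by rw [← exp_nat_mul]; norm_num
  have e2 : exp (-(2 * u)) = exp (-u) ^ 2 := by rw [← exp_nat_mul]; norm_num
  have hc : exp u ^ 2 + exp (-u) ^ 2 = 2 * Real.cosh (2 * u) := by
    rw [Real.cosh_eq, e1, e2]; ring
  have hd : (g * exp u - g * exp (-u)) ^ 2 = g ^ 2 * (2 * (Real.cosh (2 * u) - 1)) := by
    have : (g * exp u - g * exp (-u)) ^ 2 =
      g ^ 2 * ((exp u ^ 2 + exp (-u) ^ 2) - 2 * (exp u * exp (-u))) := by ring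
    rw [this, hc, hee]; ring
  have hs : (g * exp u) ^ 2 + (g * exp (-u)) ^ 2 = g ^ 2 * (2 * Real.cosh (2 * u)) := by
    rw [← hc]; ring
  have hX : Real.cosh (2 * u) - 1 = 2 * Real.tanh u ^ 2 / (1 - Real.tanh u ^ 2) := by
    rw [cosh_two]; field_simp; ring
  have e : PP b (g * exp u) (g * exp (-u)) = g ^ 2 *
      (4 / b + (4 + 2 * b ^ 2) / (3 * b) * (Real.cosh (2 * u) - 1) - Kf b u) := by
    unfold PP
    rw [kk_param hb0 hu hg, hd, hs]
    field_simp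
    ring
  rw [e, h1, hd, hX, cF]
  field_simp
  ring

include hb0 hb1 in
theorem pair_pos {A B : ℝ} (hAB : HAB b A B) {x y : ℝ} (hy : 0 < y) (hxy : y < x) :
    0 ≤ PP b x y ∧ 0 ≤ A * (x + y) ^ 2 + B * (x - y) ^ 2 ∧
      (x - y) ^ 4 ≤ PP b x y * (A * (x + y) ^ 2 + B * (x - y) ^ 2) := by
  obtain ⟨u, g, hu, hg, rfl, rfl⟩ := pair_param hy hxy
  rw [PP_param hb0 hb1 hu hg]
  have hF := F_pos hb0 hb1 hu
  have hc := cF_pos hb0 hb1
  have hcF : 0 < cF b * Ff b u := mul_pos hc hF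
  have h := hAB u hu
  have ht := tanh_pos hu
  have htanh : Real.tanh u * (g * exp u + g * exp (-u)) = g * exp u - g * exp (-u) := by
    rw [Real.tanh_eq_sinh_div_cosh, Real.sinh_eq, Real.cosh_eq]
    have : exp u + exp (-u) ≠ 0 := by positivity
    field_simp
  set s := g * exp u + g * exp (-u) with hs
  set d := g * exp u - g * exp (-u) with hd
  have e : A * s ^ 2 + B * d ^ 2 = s ^ 2 * (A + B * Real.tanh u ^ 2) := by
    rw [← htanh]; ring
  have hs0 : 0 < s := by positivity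
  have hpos : 0 < A + B * Real.tanh u ^ 2 := hcF.trans_le h
  refine ⟨by positivity, by rw [e]; positivity, ?_⟩
  rw [e]
  have h2 : d ^ 4 = d ^ 2 * (Real.tanh u ^ 2 / (cF b * Ff b u)) * (s ^ 2 * (cF b * Ff b u)) := by
    rw [← htanh]
    field_simp
  rw [h2]
  exact mul_le_mul_of_nonneg_left (mul_le_mul_of_nonneg_left h (sq_nonneg _)) (by positivity)

include hb0 in
theorem hab_A_nonneg {A B : ℝ} (hb1 : b < 1) (hAB : HAB b A B) : 0 ≤ A := by
  have h1 : Tendsto (fun u : ℝ => A + B * Real.tanh u ^ 2) (𝓝[>] 0) (𝓝 (A + B * 0 ^ 2)) := by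
    exact tendsto_const_nhds.add (tendsto_const_nhds.mul (tanh_tendsto.pow 2))
  have h3 : A + B * 0 ^ 2 = A := by ring
  rw [h3] at h1
  refine ge_of_tendsto h1 ?_
  filter_upwards [self_mem_nhdsWithin] with u hu
  exact (mul_pos (cF_pos hb0 hb1) (F_pos hb0 hb1 hu)).le.trans (hAB u hu)

include hb0 in
theorem PP_tendsto {x : ℝ} (hx : 0 < x) : Tendsto (fun y => PP b x y) (𝓝[>] 0) (𝓝 (PP b x 0)) := by
  have hk : Tendsto (fun y => kk b x y) (𝓝[>] 0) (𝓝 (kk b x 0)) := by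
    have h1 : kk b x 0 = (x ^ 2 - 0 ^ 2) * (x ^ b + 0 ^ b) / (x ^ b - 0 ^ b) := by
      unfold kk; rw [if_neg hx.ne']
    rw [h1]
    have h2 : Tendsto (fun y : ℝ => y ^ b) (𝓝[>] 0) (𝓝 (0 ^ b)) :=
      ((continuous_id.rpow_const fun _ => Or.inr hb0.le).tendsto 0).mono_left nhdsWithin_le_nhds
    have h3 : Tendsto (fun y : ℝ => y) (𝓝[>] 0) (𝓝 0) := tendsto_id.mono_left nhdsWithin_le_nhds
    have h4 : x ^ b - 0 ^ b ≠ 0 := by
      rw [zero_rpow hb0.ne', sub_zero]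
      exact (rpow_pos_of_pos hx b).ne'
    have h5 : Tendsto (fun y : ℝ => (x ^ 2 - y ^ 2) * (x ^ b + y ^ b) / (x ^ b - y ^ b)) (𝓝[>] 0)
        (𝓝 ((x ^ 2 - 0 ^ 2) * (x ^ b + 0 ^ b) / (x ^ b - 0 ^ b))) :=
      ((tendsto_const_nhds.sub (h3.pow 2)).mul (tendsto_const_nhds.add h2)).div
        (tendsto_const_nhds.sub h2) h4
    refine h5.congr' ?_
    have h6 : ∀ᶠ y in 𝓝[>] (0 : ℝ), y < x := nhdsWithin_le_nhds (eventually_lt_nhds hx)
    filter_upwards [h6] with y hy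
    unfold kk
    rw [if_neg hy.ne']
  have h3 : Tendsto (fun y : ℝ => y) (𝓝[>] 0) (𝓝 0) := tendsto_id.mono_left nhdsWithin_le_nhds
  unfold PP
  exact ((tendsto_const_nhds.mul (tendsto_const_nhds.add (h3.pow 2))).sub hk).sub
    (tendsto_const_nhds.mul ((tendsto_const_nhds.sub h3).pow 2))

include hb0 hb1 in
/-- **the pair inequality** -/
theorem pair_ineq {A B : ℝ} (hAB : HAB b A B) {x y : ℝ} (hx : 0 ≤ x) (hy : 0 ≤ y) :
    0 ≤ PP b x y ∧ 0 ≤ A * (x + y) ^ 2 + B * (x - y) ^ 2 ∧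
      (x - y) ^ 4 ≤ PP b x y * (A * (x + y) ^ 2 + B * (x - y) ^ 2) := by
  -- the case `y < x`
  have key : ∀ x y : ℝ, 0 ≤ y → y < x → 0 ≤ PP b x y ∧ 0 ≤ A * (x + y) ^ 2 + B * (x - y) ^ 2 ∧
      (x - y) ^ 4 ≤ PP b x y * (A * (x + y) ^ 2 + B * (x - y) ^ 2) := by
    intro x y hy hxy
    rcases eq_or_lt_of_le hy with h | h
    · subst h
      have hP := PP_tendsto hb0 hxy
      have h3 : Tendsto (fun y : ℝ => y) (𝓝[>] 0) (𝓝 0) := tendsto_id.mono_left nhdsWithin_le_nhds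
      have hQ : Tendsto (fun y : ℝ => A * (x + y) ^ 2 + B * (x - y) ^ 2) (𝓝[>] 0)
          (𝓝 (A * (x + 0) ^ 2 + B * (x - 0) ^ 2)) :=
        (tendsto_const_nhds.mul ((tendsto_const_nhds.add h3).pow 2)).add
          (tendsto_const_nhds.mul ((tendsto_const_nhds.sub h3).pow 2))
      have h4 : Tendsto (fun y : ℝ => (x - y) ^ 4) (𝓝[>] 0) (𝓝 ((x - 0) ^ 4)) :=
        (tendsto_const_nhds.sub h3).pow 4
      have h6 : ∀ᶠ y in 𝓝[>] (0 : ℝ), y < x := nhdsWithin_le_nhds (eventually_lt_nhds hxy)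
      refine ⟨ge_of_tendsto hP ?_, ge_of_tendsto hQ ?_, le_of_tendsto_of_tendsto h4 (hP.mul hQ) ?_⟩
      · filter_upwards [h6, self_mem_nhdsWithin] with y hy hy0
        exact (pair_pos hb0 hb1 hAB hy0 hy).1
      · filter_upwards [h6, self_mem_nhdsWithin] with y hy hy0
        exact (pair_pos hb0 hb1 hAB hy0 hy).2.1
      · filter_upwards [h6, self_mem_nhdsWithin] with y hy hy0
        exact (pair_pos hb0 hb1 hAB hy0 hy).2.2
    · exact pair_pos hb0 hb1 hAB h hxy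
  rcases lt_trichotomy x y with h | h | h
  · have h1 := key y x hx h
    rw [PP_comm, show x + y = y + x by ring, show A * (y + x) ^ 2 + B * (x - y) ^ 2 =
      A * (y + x) ^ 2 + B * (y - x) ^ 2 by ring, show (x - y) ^ 4 = (y - x) ^ 4 by ring]
    exact h1
  · subst h
    have hP : PP b x x = 0 := by
      unfold PP kk
      rw [if_pos rfl]
      have := hb0.ne'
      field_simp
      ring
    have hA := hab_A_nonneg hb0 hb1 hAB
    rw [hP]
    refine ⟨le_rfl, ?_, ?_⟩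
    · rw [sub_self]
      have : 0 ≤ A * (x + x) ^ 2 := mul_nonneg hA (sq_nonneg _)
      linarith
    · simp
  · exact key x y hy h

include hb0 hb1 in
/-- the pair inequality as a quadratic form in two complex numbers -/
theorem pair_form {A B : ℝ} (hAB : HAB b A B) {x y : ℝ} (hx : 0 ≤ x) (hy : 0 ≤ y) (s z : ℂ) :
    (4 - b ^ 2) / (3 * b) * (x - y) ^ 2 * ‖s‖ ^ 2 + 4 * (x - y) ^ 2 * (star z * s).re -
      4 * (A * (x + y) ^ 2 + B * (x - y) ^ 2) * ‖z‖ ^ 2 ≤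
    (2 / b * (x ^ 2 + y ^ 2) - kk b x y) * ‖s‖ ^ 2 := by
  obtain ⟨hP, hQ, hPQ⟩ := pair_ineq hb0 hb1 hAB hx hy
  have h1 : (star z * s).re ≤ ‖z‖ * ‖s‖ := by
    refine (Complex.re_le_norm _).trans ?_
    rw [norm_mul, norm_star]
  have h2 : (2 / b * (x ^ 2 + y ^ 2) - kk b x y) * ‖s‖ ^ 2 =
      PP b x y * ‖s‖ ^ 2 + (4 - b ^ 2) / (3 * b) * (x - y) ^ 2 * ‖s‖ ^ 2 := by
    unfold PP; ring
  rw [h2]
  have h3 : 4 * (x - y) ^ 2 * (star z * s).re ≤ 4 * (x - y) ^ 2 * (‖z‖ * ‖s‖) :=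
    mul_le_mul_of_nonneg_left h1 (by positivity)
  set P := PP b x y
  set Q := A * (x + y) ^ 2 + B * (x - y) ^ 2
  have h4 : 4 * (x - y) ^ 2 * (‖z‖ * ‖s‖) ≤ P * ‖s‖ ^ 2 + 4 * Q * ‖z‖ ^ 2 := by
    have h5 : (x - y) ^ 2 ≤ sqrt P * sqrt Q := by
      rw [← sqrt_mul hP]
      apply le_sqrt_of_sq_le
      calc ((x - y) ^ 2) ^ 2 = (x - y) ^ 4 := by ring
        _ ≤ P * Q := hPQ
    have h6 : sqrt P ^ 2 = P := sq_sqrt hP
    have h7 : sqrt Q ^ 2 = Q := sq_sqrt hQ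
    have h8 : 4 * (x - y) ^ 2 * (‖z‖ * ‖s‖) ≤ 4 * (sqrt P * sqrt Q) * (‖z‖ * ‖s‖) :=
      mul_le_mul_of_nonneg_right (mul_le_mul_of_nonneg_left h5 (by norm_num)) (by positivity)
    nlinarith [sq_nonneg (sqrt P * ‖s‖ - 2 * (sqrt Q * ‖z‖))]
  linarith

end

end SchMin
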