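import Pool.Agent.LibSchMin.M1
import Pool.Agent.LibSchP.A1
import Pool.Agent.LibSchP.A2

/-!
# The quadratic minorant of `Def(E)`, basis free form
-/

open Matrix
open scoped ComplexOrder

namespace SchMin

open SchK Pool.Agent.LibSchP

variable {n : Type} [Fintype n] [DecidableEq n]

/-- `Def(E) = (4/b) ∑ x_i² - ∑_ij |(Uᴴ g U)_ij|² k(x_i, x_j)`, `E = U diag(x) Uᴴ` -/
noncomputable def DefE (b : ℝ) (g : n → ℝ) (U : Matrix n n ℂ) (x : n → ℝ) : ℝ :=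
  4 / b * ∑ i, x i ^ 2 - ∑ i, ∑ j, ‖(Uᴴ * dg g * U) i j‖ ^ 2 * kk b (x i) (x j)

theorem conj_sub_entry (U : Matrix n n ℂ) (hU : U ∈ unitaryGroup n ℂ) (x : n → ℝ)
    (X : Matrix n n ℂ) (i j : n) : (Uᴴ * (ud U x * X - X * ud U x) * U) i j =
      ((x i - x j : ℝ) : ℂ) * (Uᴴ * X * U) i j := by
  have h1 : Uᴴ * (ud U x * X) * U = dg x * (Uᴴ * X * U) := by
    unfold ud
    calc Uᴴ * (U * dg x * Uᴴ * X) * U = (Uᴴ * U) * dg x * (Uᴴ * X * U) := by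
          simp only [Matrix.mul_assoc]
      _ = _ := by rw [a2_uu U hU, Matrix.one_mul]
  have h2 : Uᴴ * (X * ud U x) * U = (Uᴴ * X * U) * dg x := by
    unfold ud
    calc Uᴴ * (X * (U * dg x * Uᴴ)) * U = Uᴴ * X * U * dg x * (Uᴴ * U) := by
          simp only [Matrix.mul_assoc]
      _ = _ := by rw [a2_uu U hU, Matrix.mul_one]
  rw [Matrix.mul_sub, Matrix.sub_mul, h1, h2, Matrix.sub_apply, dg, Matrix.diagonal_mul,
    Matrix.mul_diagonal]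
  push_cast
  ring

theorem conj_add_entry (U : Matrix n n ℂ) (hU : U ∈ unitaryGroup n ℂ) (x : n → ℝ)
    (X : Matrix n n ℂ) (i j : n) : (Uᴴ * (ud U x * X + X * ud U x) * U) i j =
      ((x i + x j : ℝ) : ℂ) * (Uᴴ * X * U) i j := by
  have h1 : Uᴴ * (ud U x * X) * U = dg x * (Uᴴ * X * U) := by
    unfold ud
    calc Uᴴ * (U * dg x * Uᴴ * X) * U = (Uᴴ * U) * dg x * (Uᴴ * X * U) := by
          simp only [Matrix.mul_assoc]
      _ = _ := by rw [a2_uu U hU, Matrix.one_mul]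
  have h2 : Uᴴ * (X * ud U x) * U = (Uᴴ * X * U) * dg x := by
    unfold ud
    calc Uᴴ * (X * (U * dg x * Uᴴ)) * U = Uᴴ * X * U * dg x * (Uᴴ * U) := by
          simp only [Matrix.mul_assoc]
      _ = _ := by rw [a2_uu U hU, Matrix.mul_one]
  rw [Matrix.mul_add, Matrix.add_mul, h1, h2, Matrix.add_apply, dg, Matrix.diagonal_mul,
    Matrix.mul_diagonal]
  push_cast
  ring

theorem trace_conj2 (U : Matrix n n ℂ) (hU : U ∈ unitaryGroup n ℂ) (X Y : Matrix n n ℂ) :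
    trace ((Uᴴ * X * U)ᴴ * (Uᴴ * Y * U)) = trace (Xᴴ * Y) := by
  have h : (Uᴴ * X * U)ᴴ * (Uᴴ * Y * U) = Uᴴ * (Xᴴ * Y) * U := by
    rw [conjTranspose_mul, conjTranspose_mul, conjTranspose_conjTranspose]
    calc Uᴴ * (Xᴴ * U) * (Uᴴ * Y * U) = Uᴴ * Xᴴ * (U * Uᴴ) * Y * U := by
          simp only [Matrix.mul_assoc]
      _ = _ := by rw [a2_uu' U hU, Matrix.mul_one, Matrix.mul_assoc Uᴴ]
  rw [h, trace_mul_cycle, a2_uu' U hU, Matrix.one_mul]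

theorem fr_conj (U : Matrix n n ℂ) (hU : U ∈ unitaryGroup n ℂ) (X : Matrix n n ℂ) :
    fr (Uᴴ * X * U) = fr X := by
  rw [fr_eq_trace, trace_conj2 U hU, fr_eq_trace]

theorem fr_comm (U : Matrix n n ℂ) (hU : U ∈ unitaryGroup n ℂ) (x : n → ℝ) (X : Matrix n n ℂ) :
    fr (ud U x * X - X * ud U x) = ∑ i, ∑ j, (x i - x j) ^ 2 * ‖(Uᴴ * X * U) i j‖ ^ 2 := by
  rw [← fr_conj U hU]
  unfold fr
  refine Finset.sum_congr rfl fun i _ => Finset.sum_congr rfl fun j _ => ?_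
  rw [conj_sub_entry U hU, norm_mul, Complex.norm_real, mul_pow, Real.norm_eq_abs, sq_abs]

theorem fr_anti (U : Matrix n n ℂ) (hU : U ∈ unitaryGroup n ℂ) (x : n → ℝ) (X : Matrix n n ℂ) :
    fr (ud U x * X + X * ud U x) = ∑ i, ∑ j, (x i + x j) ^ 2 * ‖(Uᴴ * X * U) i j‖ ^ 2 := by
  rw [← fr_conj U hU]
  unfold fr
  refine Finset.sum_congr rfl fun i _ => Finset.sum_congr rfl fun j _ => ?_
  rw [conj_add_entry U hU, norm_mul, Complex.norm_real, mul_pow, Real.norm_eq_abs, sq_abs]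

theorem tr_comm (U : Matrix n n ℂ) (hU : U ∈ unitaryGroup n ℂ) (x : n → ℝ) (X Y : Matrix n n ℂ) :
    (trace ((ud U x * X - X * ud U x)ᴴ * (ud U x * Y - Y * ud U x))).re =
      ∑ i, ∑ j, (x i - x j) ^ 2 * (star ((Uᴴ * X * U) i j) * (Uᴴ * Y * U) i j).re := by
  rw [← trace_conj2 U hU, a1_trace, Complex.re_sum]
  refine Finset.sum_congr rfl fun i _ => ?_
  rw [Complex.re_sum]
  refine Finset.sum_congr rfl fun j _ => ?_
  rw [conj_sub_entry U hU, conj_sub_entry U hU, star_mul', Complex.star_def, Complex.conj_ofReal]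
  rw [show ((x i - x j : ℝ) : ℂ) * (starRingEnd ℂ) ((Uᴴ * X * U) i j) *
    (((x i - x j : ℝ) : ℂ) * (Uᴴ * Y * U) i j) = (((x i - x j) ^ 2 : ℝ) : ℂ) *
      ((starRingEnd ℂ) ((Uᴴ * X * U) i j) * (Uᴴ * Y * U) i j) by push_cast; ring,
    Complex.re_ofReal_mul]

theorem row_sum (g : n → ℝ) (hg : ∀ i, g i ^ 2 = 1) (U : Matrix n n ℂ)
    (hU : U ∈ unitaryGroup n ℂ) (i : n) : ∑ j, ‖(Uᴴ * dg g * U) i j‖ ^ 2 = 1 := by
  have h1 : (Uᴴ * dg g * U) * (Uᴴ * dg g * U)ᴴ = 1 := by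
    rw [conjTranspose_mul, conjTranspose_mul, conjTranspose_conjTranspose, dg_conjTranspose]
    calc Uᴴ * dg g * U * (Uᴴ * (dg g * U)) = Uᴴ * dg g * (U * Uᴴ) * dg g * U := by
          simp only [Matrix.mul_assoc]
      _ = Uᴴ * (dg g * dg g) * U := by
          rw [a2_uu' U hU, Matrix.mul_one]; simp only [Matrix.mul_assoc]
      _ = 1 := by
          rw [dg_mul]
          have : (fun k => g k * g k) = fun _ => (1 : ℝ) := by
            funext k; rw [← sq, hg]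
          rw [this, a2_dg_one, Matrix.mul_one, a2_uu U hU]
  generalize Uᴴ * dg g * U = S at h1 ⊢
  have h2 := congrArg (fun M => (M i i).re) h1
  simp only [Matrix.mul_apply, conjTranspose_apply, one_apply_eq, Complex.one_re,
    Complex.re_sum] at h2
  rw [← h2]
  refine Finset.sum_congr rfl fun j _ => ?_
  rw [Complex.star_def, Complex.mul_conj, Complex.ofReal_re, Complex.normSq_eq_norm_sq]

theorem herm_norm (g : n → ℝ) (U : Matrix n n ℂ) (i j : n) :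
    ‖(Uᴴ * dg g * U) i j‖ = ‖(Uᴴ * dg g * U) j i‖ := by
  have hH : (Uᴴ * dg g * U).IsHermitian := isHermitian_conjTranspose_mul_mul U (dg_isHermitian g)
  rw [← hH.apply i j, norm_star]

theorem DefE_eq (b : ℝ) (g : n → ℝ) (hg : ∀ i, g i ^ 2 = 1) (U : Matrix n n ℂ)
    (hU : U ∈ unitaryGroup n ℂ) (x : n → ℝ) : DefE b g U x =
      ∑ i, ∑ j, (2 / b * (x i ^ 2 + x j ^ 2) - kk b (x i) (x j)) *
        ‖(Uᴴ * dg g * U) i j‖ ^ 2 := by
  have h1 : ∑ i, ∑ j, x i ^ 2 * ‖(Uᴴ * dg g * U) i j‖ ^ 2 = ∑ i, x i ^ 2 := by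
    refine Finset.sum_congr rfl fun i _ => ?_
    rw [← Finset.mul_sum, row_sum g hg U hU, mul_one]
  have h2 : ∑ i, ∑ j, x j ^ 2 * ‖(Uᴴ * dg g * U) i j‖ ^ 2 = ∑ i, x i ^ 2 := by
    rw [Finset.sum_comm, ← h1]
    refine Finset.sum_congr rfl fun i _ => Finset.sum_congr rfl fun j _ => ?_
    rw [herm_norm]
  have h3 : ∑ i, ∑ j, (2 / b * (x i ^ 2 + x j ^ 2) - kk b (x i) (x j)) *
        ‖(Uᴴ * dg g * U) i j‖ ^ 2 =
      2 / b * ∑ i, ∑ j, x i ^ 2 * ‖(Uᴴ * dg g * U) i j‖ ^ 2 +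
      2 / b * ∑ i, ∑ j, x j ^ 2 * ‖(Uᴴ * dg g * U) i j‖ ^ 2 -
      ∑ i, ∑ j, ‖(Uᴴ * dg g * U) i j‖ ^ 2 * kk b (x i) (x j) := by
    simp only [Finset.mul_sum, ← Finset.sum_add_distrib, ← Finset.sum_sub_distrib]
    refine Finset.sum_congr rfl fun i _ => Finset.sum_congr rfl fun j _ => ?_
    ring
  rw [h3, h1, h2, DefE]
  ring

/-- **The quadratic minorant of `Def(E)`**, basis free: `E = U diag(x) Uᴴ`, `x ≥ 0`, `g` a diagonal
involution, `Z` ANY matrix. -/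
theorem minorant {b : ℝ} (hb0 : 0 < b) (hb1 : b < 1) {A B : ℝ} (hAB : HAB b A B) (g : n → ℝ)
    (hg : ∀ i, g i ^ 2 = 1) (U : Matrix n n ℂ) (hU : U ∈ unitaryGroup n ℂ) (x : n → ℝ)
    (hx : ∀ i, 0 ≤ x i) (E Z : Matrix n n ℂ) (hE : E = ud U x) :
    (4 - b ^ 2) / (3 * b) * fr (E * dg g - dg g * E) +
      4 * ((trace ((E * Z - Z * E)ᴴ * (E * dg g - dg g * E))).re -
        A * fr (E * Z + Z * E) - B * fr (E * Z - Z * E)) ≤ DefE b g U x := by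
  subst hE
  rw [fr_comm U hU, fr_comm U hU, fr_anti U hU, tr_comm U hU, DefE_eq b g hg U hU]
  simp only [Finset.mul_sum, ← Finset.sum_add_distrib, ← Finset.sum_sub_distrib]
  refine Finset.sum_le_sum fun i _ => Finset.sum_le_sum fun j _ => ?_
  have h := pair_form hb0 hb1 hAB (hx i) (hx j) ((Uᴴ * dg g * U) i j) ((Uᴴ * Z * U) i j)
  linarith

end SchMin
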