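import Pool.Agent.LibSchMin.M2

/-!
# The quadratic minorant of `Def(E)` in block form
-/

open Matrix
open scoped ComplexOrder

namespace SchMin

open SchK Pool.Agent.LibSchP

section ip

variable {m n : Type} [Fintype m] [Fintype n]

/-- real inner product of matrices -/
noncomputable def ip (X Y : Matrix m n ℂ) : ℝ := (trace (Xᴴ * Y)).re

theorem ip_self (X : Matrix m n ℂ) : ip X X = fr X := (fr_eq_trace X).symm

theorem ip_comm (X Y : Matrix m n ℂ) : ip X Y = ip Y X := by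
  unfold ip
  have h : trace (Xᴴ * Y) = star (trace (Yᴴ * X)) := by
    rw [← trace_conjTranspose, conjTranspose_mul, conjTranspose_conjTranspose]
  rw [h, Complex.star_def, Complex.conj_re]

theorem ip_add_right (X Y Z : Matrix m n ℂ) : ip X (Y + Z) = ip X Y + ip X Z := by
  unfold ip
  rw [Matrix.mul_add, trace_add, Complex.add_re]

theorem ip_add_left (X Y Z : Matrix m n ℂ) : ip (X + Y) Z = ip X Z + ip Y Z := by
  rw [ip_comm, ip_add_right, ip_comm Z X, ip_comm Z Y]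

theorem ip_smul_right (r : ℝ) (X Y : Matrix m n ℂ) : ip X ((r : ℂ) • Y) = r * ip X Y := by
  unfold ip
  rw [Matrix.mul_smul, trace_smul, smul_eq_mul, Complex.re_ofReal_mul]

theorem ip_smul_left (r : ℝ) (X Y : Matrix m n ℂ) : ip ((r : ℂ) • X) Y = r * ip X Y := by
  rw [ip_comm, ip_smul_right, ip_comm]

theorem ip_neg_right (X Y : Matrix m n ℂ) : ip X (-Y) = -ip X Y := by
  unfold ip
  rw [Matrix.mul_neg, trace_neg, Complex.neg_re]

theorem ip_neg_left (X Y : Matrix m n ℂ) : ip (-X) Y = -ip X Y := by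
  rw [ip_comm, ip_neg_right, ip_comm]

theorem ip_sub_right (X Y Z : Matrix m n ℂ) : ip X (Y - Z) = ip X Y - ip X Z := by
  rw [sub_eq_add_neg, ip_add_right, ip_neg_right, ← sub_eq_add_neg]

theorem ip_sub_left (X Y Z : Matrix m n ℂ) : ip (X - Y) Z = ip X Z - ip Y Z := by
  rw [sub_eq_add_neg, ip_add_left, ip_neg_left, ← sub_eq_add_neg]

theorem ip_conj (X Y : Matrix m n ℂ) : ip Xᴴ Yᴴ = ip X Y := by
  unfold ip
  have h : trace (Xᴴᴴ * Yᴴ) = star (trace (Y * Xᴴ)) := by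
    rw [← trace_conjTranspose, conjTranspose_mul]
  rw [h, Complex.star_def, Complex.conj_re, trace_mul_comm]

end ip

variable {m₁ m₂ : Type} [Fintype m₁] [Fintype m₂]

theorem fr_fromBlocks {n₁ n₂ : Type} [Fintype n₁] [Fintype n₂] (A : Matrix m₁ n₁ ℂ)
    (B : Matrix m₁ n₂ ℂ) (C : Matrix m₂ n₁ ℂ) (D : Matrix m₂ n₂ ℂ) :
    fr (fromBlocks A B C D) = fr A + fr B + (fr C + fr D) := by
  unfold fr
  rw [Fintype.sum_sum_type]
  simp only [Fintype.sum_sum_type, fromBlocks_apply₁₁, fromBlocks_apply₁₂, fromBlocks_apply₂₁,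
    fromBlocks_apply₂₂, Finset.sum_add_distrib]

omit [Fintype m₁] [Fintype m₂] in
theorem trace_blocks {n₁ n₂ : Type} [Fintype n₁] [Fintype n₂] (A : Matrix n₁ n₁ ℂ)
    (B : Matrix n₁ n₂ ℂ) (C : Matrix n₂ n₁ ℂ) (D : Matrix n₂ n₂ ℂ) :
    trace (fromBlocks A B C D) = trace A + trace D := by
  simp [trace, Fintype.sum_sum_type]

theorem ip_fromBlocks {n₁ n₂ : Type} [Fintype n₁] [Fintype n₂] (A A' : Matrix m₁ n₁ ℂ)
    (B B' : Matrix m₁ n₂ ℂ) (C C' : Matrix m₂ n₁ ℂ) (D D' : Matrix m₂ n₂ ℂ) :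
    ip (fromBlocks A B C D) (fromBlocks A' B' C' D') = ip A A' + ip B B' + (ip C C' + ip D D') := by
  unfold ip
  rw [fromBlocks_conjTranspose, fromBlocks_multiply, trace_blocks, trace_add, trace_add]
  simp only [Complex.add_re]
  ring

variable [DecidableEq m₁] [DecidableEq m₂]

/-- the sign involution of the two blocks -/
def sg (m₁ m₂ : Type) : m₁ ⊕ m₂ → ℝ := Sum.elim (fun _ => 1) (fun _ => -1)

theorem sg_sq (i : m₁ ⊕ m₂) : sg m₁ m₂ i ^ 2 = 1 := by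
  rcases i with i | i <;> simp [sg]

theorem dg_sg : dg (sg m₁ m₂) = fromBlocks 1 0 0 (-1) := by
  ext i j
  rcases i with i | i <;> rcases j with j | j <;>
    simp [dg, sg, diagonal_apply, Matrix.one_apply]
  split_ifs <;> simp

theorem comm_sg (E11 : Matrix m₁ m₁ ℂ) (E12 : Matrix m₁ m₂ ℂ) (E22 : Matrix m₂ m₂ ℂ) :
    fromBlocks E11 E12 E12ᴴ E22 * dg (sg m₁ m₂) - dg (sg m₁ m₂) * fromBlocks E11 E12 E12ᴴ E22 =
      fromBlocks 0 (-((2 : ℝ) : ℂ) • E12) (((2 : ℝ) : ℂ) • E12ᴴ) 0 := by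
  rw [dg_sg, fromBlocks_multiply, fromBlocks_multiply, sub_eq_add_neg, fromBlocks_neg,
    fromBlocks_add]
  congr 1
  · simp
  · simp [two_smul]
  · simp [two_smul]
  · simp

omit [DecidableEq m₁] [DecidableEq m₂] in
theorem fr_smul (r : ℝ) {m n : Type} [Fintype m] [Fintype n] (X : Matrix m n ℂ) :
    fr ((r : ℂ) • X) = r ^ 2 * fr X := by
  rw [← ip_self, ip_smul_left, ip_smul_right, ip_self]; ring

omit [DecidableEq m₁] [DecidableEq m₂] in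
theorem fr_conjTranspose {m n : Type} [Fintype m] [Fintype n] (X : Matrix m n ℂ) :
    fr Xᴴ = fr X := by
  rw [← ip_self, ip_conj, ip_self]

theorem fr_comm_sg (E11 : Matrix m₁ m₁ ℂ) (E12 : Matrix m₁ m₂ ℂ) (E22 : Matrix m₂ m₂ ℂ) :
    fr (fromBlocks E11 E12 E12ᴴ E22 * dg (sg m₁ m₂) -
      dg (sg m₁ m₂) * fromBlocks E11 E12 E12ᴴ E22) = 8 * fr E12 := by
  rw [comm_sg, fr_fromBlocks, fr_smul, fr_conjTranspose]
  have h1 : fr (-((2 : ℝ) : ℂ) • E12) = 4 * fr E12 := by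
    have : -((2 : ℝ) : ℂ) • E12 = ((-2 : ℝ) : ℂ) • E12 := by push_cast; rfl
    rw [this, fr_smul]; ring
  have h2 : ∀ {m n : Type} [Fintype m] [Fintype n], fr (0 : Matrix m n ℂ) = 0 := by
    intro m n _ _
    simp [fr]
  rw [h1, h2, h2]
  ring

/-- `Y = [E, W]`, `W = (0, -E₁₂; E₂₁, 0)` -/
noncomputable def YY (E11 : Matrix m₁ m₁ ℂ) (E12 : Matrix m₁ m₂ ℂ) (E22 : Matrix m₂ m₂ ℂ) :
    Matrix (m₁ ⊕ m₂) (m₁ ⊕ m₂) ℂ :=
  fromBlocks (((2 : ℝ) : ℂ) • (E12 * E12ᴴ)) (E12 * E22 - E11 * E12) (E12 * E22 - E11 * E12)ᴴ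
    (-(((2 : ℝ) : ℂ) • (E12ᴴ * E12)))

theorem comm_comm (E11 : Matrix m₁ m₁ ℂ) (E12 : Matrix m₁ m₂ ℂ) (E22 : Matrix m₂ m₂ ℂ)
    (h11 : E11.IsHermitian) (h22 : E22.IsHermitian) :
    fromBlocks E11 E12 E12ᴴ E22 * (fromBlocks 0 (-((2 : ℝ) : ℂ) • E12) (((2 : ℝ) : ℂ) • E12ᴴ) 0) -
      (fromBlocks 0 (-((2 : ℝ) : ℂ) • E12) (((2 : ℝ) : ℂ) • E12ᴴ) 0) *
        fromBlocks E11 E12 E12ᴴ E22 = ((2 : ℝ) : ℂ) • YY E11 E12 E22 := by
  rw [YY, fromBlocks_multiply, fromBlocks_multiply, sub_eq_add_neg, fromBlocks_neg,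
    fromBlocks_add, fromBlocks_smul]
  have e11 : E11ᴴ = E11 := h11
  have e22 : E22ᴴ = E22 := h22
  congr 1
  · simp [two_smul, Matrix.mul_add, Matrix.add_mul]
  · simp [two_smul, Matrix.mul_add, Matrix.add_mul]
    abel
  · simp [two_smul, e11, e22, Matrix.mul_add, Matrix.add_mul]
    abel
  · simp [two_smul, Matrix.mul_add, Matrix.add_mul]

/-- **The minorant with a Hermitian `Z`**. -/
theorem minorant_block {b : ℝ} (hb0 : 0 < b) (hb1 : b < 1) {A B : ℝ} (hAB : HAB b A B)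
    (E11 : Matrix m₁ m₁ ℂ) (E12 : Matrix m₁ m₂ ℂ) (E22 : Matrix m₂ m₂ ℂ)
    (h11 : E11.IsHermitian) (h22 : E22.IsHermitian)
    (U : Matrix (m₁ ⊕ m₂) (m₁ ⊕ m₂) ℂ) (hU : U ∈ unitaryGroup (m₁ ⊕ m₂) ℂ) (x : m₁ ⊕ m₂ → ℝ)
    (hx : ∀ i, 0 ≤ x i) (hE : fromBlocks E11 E12 E12ᴴ E22 = ud U x)
    (Z : Matrix (m₁ ⊕ m₂) (m₁ ⊕ m₂) ℂ) (hZ : Z.IsHermitian) :
    8 * ((4 - b ^ 2) / (3 * b)) * fr E12 +
      4 * (2 * (trace (Z * YY E11 E12 E22)).re -
        A * fr (fromBlocks E11 E12 E12ᴴ E22 * Z + Z * fromBlocks E11 E12 E12ᴴ E22) -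
        B * fr (fromBlocks E11 E12 E12ᴴ E22 * Z - Z * fromBlocks E11 E12 E12ᴴ E22)) ≤
      DefE b (sg m₁ m₂) U x := by
  have h := minorant hb0 hb1 hAB (sg m₁ m₂) sg_sq U hU x hx _ Z hE
  rw [fr_comm_sg, comm_sg] at h
  have hEH : (fromBlocks E11 E12 E12ᴴ E22)ᴴ = fromBlocks E11 E12 E12ᴴ E22 := by
    rw [hE]; exact ud_isHermitian U x
  have hZ' : Zᴴ = Z := hZ
  have h2 : trace ((fromBlocks E11 E12 E12ᴴ E22 * Z - Z * fromBlocks E11 E12 E12ᴴ E22)ᴴ *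
      fromBlocks 0 (-((2 : ℝ) : ℂ) • E12) (((2 : ℝ) : ℂ) • E12ᴴ) 0) =
      ((2 : ℝ) : ℂ) * trace (Z * YY E11 E12 E22) := by
    have e : ((2 : ℝ) : ℂ) * trace (Z * YY E11 E12 E22) =
        trace (Z * (((2 : ℝ) : ℂ) • YY E11 E12 E22)) := by
      rw [Matrix.mul_smul, trace_smul, smul_eq_mul]
    rw [conjTranspose_sub, conjTranspose_mul, conjTranspose_mul, hEH, hZ', e,
      ← comm_comm E11 E12 E22 h11 h22, Matrix.sub_mul, Matrix.mul_sub, trace_sub, trace_sub]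
    congr 1
    · rw [Matrix.mul_assoc]
    · rw [Matrix.mul_assoc, trace_mul_comm, Matrix.mul_assoc]
  rw [h2, Complex.re_ofReal_mul] at h
  linarith

end SchMin
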