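import Pool.Agent.LibSchMin.M4

/-!
# The kernel in terms of divided differences
-/

open Matrix
open scoped ComplexOrder

namespace SchMin

open SchK Pool.Agent.LibSchP

theorem kk_eq_dd {b : ℝ} (hb : 0 < b) {x y : ℝ} (hx : 0 ≤ x) (hy : 0 ≤ y) :
    kk b x y = (x ^ b + y ^ b) * dd (2 / b) (x ^ b) (y ^ b) := by
  have h2 : ∀ z : ℝ, 0 ≤ z → (z ^ b) ^ (2 / b) = z ^ 2 := by
    intro z hz
    rw [← Real.rpow_mul hz, mul_div_cancel₀ _ hb.ne']
    norm_num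
  unfold kk dd
  by_cases h : x = y
  · subst h
    rw [if_pos rfl, if_pos rfl]
    rcases eq_or_lt_of_le hx with h0 | h0
    · rw [← h0, Real.zero_rpow hb.ne']; simp
    · have e : x ^ b * (x ^ b) ^ (2 / b - 1) = x ^ 2 := by
        rw [← Real.rpow_mul hx, ← Real.rpow_add h0]
        rw [show b + b * (2 / b - 1) = 2 by field_simp; ring]
        norm_num
      calc 4 / b * x ^ 2 = 4 / b * (x ^ b * (x ^ b) ^ (2 / b - 1)) := by rw [e]
        _ = _ := by ring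
  · have h' : x ^ b ≠ y ^ b := by
      intro he
      exact h ((Real.rpow_left_inj hx hy hb.ne').1 he)
    rw [if_neg h, if_neg h', h2 x hx, h2 y hy]
    ring

/-- `Def(E)` in terms of `P = E^b` -/
theorem DefE_dd {n : Type} [Fintype n] [DecidableEq n] {b : ℝ} (hb : 0 < b) (g : n → ℝ)
    (U : Matrix n n ℂ) (x : n → ℝ) (hx : ∀ i, 0 ≤ x i) :
    DefE b g U x = 4 / b * ∑ i, x i ^ 2 - ∑ i, ∑ j, ‖(Uᴴ * dg g * U) i j‖ ^ 2 *
      ((x i ^ b + x j ^ b) * dd (2 / b) (x i ^ b) (x j ^ b)) := by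
  unfold DefE
  congr 1
  refine Finset.sum_congr rfl fun i _ => Finset.sum_congr rfl fun j _ => ?_
  rw [kk_eq_dd hb (hx i) (hx j)]

/-- the same with `P = ud U y`, `y = x^b` -/
theorem DefE_P {n : Type} [Fintype n] [DecidableEq n] {b : ℝ} (hb : 0 < b) (g : n → ℝ)
    (U : Matrix n n ℂ) (y : n → ℝ) (hy : ∀ i, 0 ≤ y i) :
    DefE b g U (fun i => y i ^ (1 / b)) = 4 / b * ∑ i, y i ^ (2 / b) -
      ∑ i, ∑ j, ‖(Uᴴ * dg g * U) i j‖ ^ 2 * ((y i + y j) * dd (2 / b) (y i) (y j)) := by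
  have h1 : ∀ i, (y i ^ (1 / b)) ^ b = y i := by
    intro i
    rw [← Real.rpow_mul (hy i), one_div, inv_mul_cancel₀ hb.ne', Real.rpow_one]
  have h2 : ∀ i, (y i ^ (1 / b)) ^ 2 = y i ^ (2 / b) := by
    intro i
    rw [← Real.rpow_natCast, ← Real.rpow_mul (hy i)]
    congr 1
    push_cast
    ring
  rw [DefE_dd hb g U _ fun i => Real.rpow_nonneg (hy i) _]
  simp only [h1, h2]

end SchMin
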